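import Pool.Agent.H85.AK.Stmt2

/-!
# Choosing `rank M` linear forms
-/

set_option autoImplicit false

namespace Pool.Agent.H297.AKLin

open Finset

variable {M : Type} [AddCommGroup M]

theorem lam_sum {ρ : ℕ} (b : Module.Basis (Fin ρ) ℤ M) (L : M →+ ℝ) (z : Fin ρ → ℤ) :
    L (∑ j, z j • b j) = ∑ j, (z j : ℝ) * L (b j) := by
  rw [map_sum]
  refine Finset.sum_congr rfl fun j _ => ?_
  rw [map_zsmul, zsmul_eq_mul]

theorem inj {ρ : ℕ} (b : Module.Basis (Fin ρ) ℤ M) {ι : Type} [Finite ι] (Λ : ι → (M →+ ℝ))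
    (H : ∀ T : ℝ, {m : M | ∀ i, |Λ i m| ≤ T}.Finite) (x : Fin ρ → ℝ)
    (hx : ∀ i, ∑ j, x j * Λ i (b j) = 0) : x = 0 := by
  classical
  have := Fintype.ofFinite ι
  obtain ⟨T, hT⟩ : ∃ T : ℝ, T = ∑ i, ∑ j, |Λ i (b j)| := ⟨_, rfl⟩
  obtain ⟨m, hmd⟩ : ∃ m : ℕ → M, ∀ t, m t = ∑ j, ⌊(t : ℝ) * x j⌋ • b j := ⟨_, fun _ => rfl⟩
  have hm : ∀ t i, |Λ i (m t)| ≤ T := by
    intro t i
    rw [hmd, lam_sum]
    have h1 : ∑ j, ((⌊(t : ℝ) * x j⌋ : ℤ) : ℝ) * Λ i (b j) =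
        -∑ j, Int.fract ((t : ℝ) * x j) * Λ i (b j) := by
      have h2 : ∑ j, ((⌊(t : ℝ) * x j⌋ : ℤ) : ℝ) * Λ i (b j) +
          ∑ j, Int.fract ((t : ℝ) * x j) * Λ i (b j) = t * ∑ j, x j * Λ i (b j) := by
        rw [← sum_add_distrib, mul_sum]
        refine sum_congr rfl fun j _ => ?_
        rw [← add_mul, Int.floor_add_fract, mul_assoc]
      rw [hx i, mul_zero] at h2
      linarith
    rw [h1, abs_neg]
    calc |∑ j, Int.fract ((t : ℝ) * x j) * Λ i (b j)|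
        ≤ ∑ j, |Int.fract ((t : ℝ) * x j) * Λ i (b j)| := abs_sum_le_sum_abs _ _
      _ ≤ ∑ j, |Λ i (b j)| := by
        refine sum_le_sum fun j _ => ?_
        rw [abs_mul, abs_of_nonneg (Int.fract_nonneg _)]
        have e1 := (Int.fract_lt_one ((t : ℝ) * x j)).le
        have e2 := abs_nonneg (Λ i (b j))
        nlinarith
      _ ≤ T := by
        rw [hT]
        exact single_le_sum (f := fun i => ∑ j, |Λ i (b j)|)
          (fun i _ => sum_nonneg fun j _ => abs_nonneg _) (mem_univ i)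
  by_contra hne
  obtain ⟨k, hk⟩ : ∃ k, x k ≠ 0 := by
    by_contra h
    push Not at h
    exact hne (funext h)
  have hfin : (Set.range m).Finite := (H T).subset (by rintro _ ⟨t, rfl⟩; exact hm t)
  have hfin2 : ((fun y => |((b.repr y k : ℤ) : ℝ)|) '' Set.range m).Finite := hfin.image _
  obtain ⟨B, hB⟩ := hfin2.bddAbove
  obtain ⟨t, ht⟩ := exists_nat_gt ((B + 1) / |x k|)
  have h1 : |((b.repr (m t) k : ℤ) : ℝ)| ≤ B := hB ⟨m t, ⟨t, rfl⟩, rfl⟩
  have h2 : b.repr (m t) k = ⌊(t : ℝ) * x k⌋ := by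
    rw [hmd]
    exact congrFun (b.repr_sum_self fun j => ⌊(t : ℝ) * x j⌋) k
  rw [h2] at h1
  have h3 : |(t : ℝ) * x k| ≤ |((⌊(t : ℝ) * x k⌋ : ℤ) : ℝ)| + 1 := by
    have e := Int.floor_add_fract ((t : ℝ) * x k)
    have e1 := Int.fract_nonneg ((t : ℝ) * x k)
    have e2 := Int.fract_lt_one ((t : ℝ) * x k)
    calc |(t : ℝ) * x k| = |((⌊(t : ℝ) * x k⌋ : ℤ) : ℝ) + Int.fract ((t : ℝ) * x k)| := by rw [e]
      _ ≤ |((⌊(t : ℝ) * x k⌋ : ℤ) : ℝ)| + |Int.fract ((t : ℝ) * x k)| := abs_add_le _ _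
      _ ≤ |((⌊(t : ℝ) * x k⌋ : ℤ) : ℝ)| + 1 := by
          rw [abs_of_nonneg e1]
          linarith
  rw [abs_mul, abs_of_nonneg (Nat.cast_nonneg t)] at h3
  rw [div_lt_iff₀ (abs_pos.2 hk)] at ht
  linarith

theorem s_lin : Pool.Agent.H85.AK.Stmt2.S_lin := by
  classical
  intro M _ _ _ ι _ Λ H
  obtain ⟨ρ, hρ⟩ : ∃ ρ : ℕ, ρ = Module.finrank ℤ M := ⟨_, rfl⟩
  rw [← hρ]
  have b : Module.Basis (Fin ρ) ℤ M := (Module.finBasis ℤ M).reindex (finCongr hρ.symm)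
  obtain ⟨a, ha⟩ : ∃ a : ι → (Fin ρ → ℝ), ∀ i j, a i j = Λ i (b j) := ⟨_, fun _ _ => rfl⟩
  have hinj : ∀ x : Fin ρ → ℝ, (∀ i, ∑ j, x j * a i j = 0) → x = 0 := by
    intro x hx
    refine inj b Λ H x fun i => ?_
    rw [← hx i]
    exact sum_congr rfl fun j _ => by rw [ha]
  -- a functional given by its values at the unit vectors
  have hfun : ∀ (f : (Fin ρ → ℝ) →ₗ[ℝ] ℝ) (v : Fin ρ → ℝ),
      f v = ∑ j, f (Pi.single j 1) * v j := by
    intro f v
    have h1 : v = ∑ j, v j • (Pi.single j (1 : ℝ) : Fin ρ → ℝ) := by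
      funext k
      rw [Finset.sum_apply, Finset.sum_eq_single k]
      · simp
      · intro j _ hj
        simp [Pi.single_apply, hj.symm]
      · intro h
        exact absurd (mem_univ k) h
    conv_lhs => rw [h1]
    rw [map_sum]
    refine sum_congr rfl fun j _ => ?_
    rw [map_smul, smul_eq_mul, mul_comm]
  have hspan : Submodule.span ℝ (Set.range a) = ⊤ := by
    by_contra hne
    obtain ⟨f, hf0, hf⟩ := Submodule.exists_le_ker_of_lt_top _ (lt_top_iff_ne_top.2 hne)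
    apply hf0
    have h1 : (fun j => f (Pi.single j 1)) = (0 : Fin ρ → ℝ) := by
      refine hinj _ fun i => ?_
      rw [← hfun f (a i)]
      exact LinearMap.mem_ker.1 (hf (Submodule.subset_span ⟨i, rfl⟩))
    refine LinearMap.ext fun v => ?_
    rw [hfun f v, LinearMap.zero_apply]
    refine sum_eq_zero fun j _ => ?_
    have h2 := congrFun h1 j
    simp only [Pi.zero_apply] at h2
    rw [h2, zero_mul]
  have hfr : Module.finrank ℝ (Submodule.span ℝ (Set.range a)) = ρ := by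
    rw [hspan, finrank_top, Module.finrank_fin_fun]
  obtain ⟨f, hf1, hf2, -⟩ := Submodule.exists_fun_fin_finrank_span_eq ℝ (Set.range a)
  have hf1' : ∀ j : Fin ρ, ∃ i, a i = f (finCongr hfr.symm j) := fun j => hf1 _
  choose e he using hf1'
  have hrange : Set.range (fun j => a (e j)) = Set.range f := by
    ext v
    constructor
    · rintro ⟨j, rfl⟩
      exact ⟨_, (he j).symm⟩
    · rintro ⟨j, rfl⟩
      refine ⟨finCongr hfr j, ?_⟩
      simp only [he]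
      congr 1
  have hspan2 : Submodule.span ℝ (Set.range fun j => a (e j)) = ⊤ := by
    rw [hrange, hf2, hspan]
  -- the linear map
  obtain ⟨Ψ, hΨ⟩ : ∃ Ψ : (Fin ρ → ℝ) →ₗ[ℝ] (Fin ρ → ℝ),
      ∀ x j, Ψ x j = ∑ k, x k * a (e j) k := by
    refine ⟨LinearMap.pi fun j => ∑ k, (a (e j) k) • LinearMap.proj k, fun x j => ?_⟩
    simp only [LinearMap.pi_apply, LinearMap.sum_apply, LinearMap.smul_apply,
      LinearMap.proj_apply, smul_eq_mul]
    exact sum_congr rfl fun k _ => mul_comm _ _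
  have hker : LinearMap.ker Ψ = ⊥ := by
    rw [LinearMap.ker_eq_bot']
    intro x hx
    obtain ⟨g, hg⟩ : ∃ g : (Fin ρ → ℝ) →ₗ[ℝ] ℝ, ∀ v, g v = ∑ k, x k * v k := by
      refine ⟨∑ k, x k • LinearMap.proj k, fun v => ?_⟩
      simp only [LinearMap.sum_apply, LinearMap.smul_apply, LinearMap.proj_apply, smul_eq_mul]
    have h1 : Submodule.span ℝ (Set.range fun j => a (e j)) ≤ LinearMap.ker g := by
      rw [Submodule.span_le]
      rintro _ ⟨j, rfl⟩
      change g (a (e j)) = 0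
      rw [hg, ← hΨ, hx]
      rfl
    rw [hspan2] at h1
    funext j
    have h2 := LinearMap.mem_ker.1 (h1 (Submodule.mem_top (x := (Pi.single j 1 : Fin ρ → ℝ))))
    rw [hg, Finset.sum_eq_single j] at h2
    · simpa using h2
    · intro k _ hk
      rw [Pi.single_eq_of_ne hk, mul_zero]
    · intro h
      exact absurd (mem_univ j) h
  obtain ⟨K, hK, hanti⟩ := LinearMap.exists_antilipschitzWith Ψ hker
  refine ⟨e, fun T => ?_⟩
  obtain ⟨N, hN⟩ := exists_nat_gt ((K : ℝ) * max T 0)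
  have hfin : (Set.Icc (fun _ => -(N : ℤ)) (fun _ => (N : ℤ)) : Set (Fin ρ → ℤ)).Finite :=
    Set.finite_Icc _ _
  refine (hfin.image (fun z => ∑ j, z j • b j)).subset ?_
  intro m hm
  have hm' : ∀ j, |Λ (e j) m| ≤ T := hm
  obtain ⟨z, hz⟩ : ∃ z : Fin ρ → ℤ, z = fun j => b.repr m j := ⟨_, rfl⟩
  have hzm : ∑ j, z j • b j = m := by
    rw [hz]
    exact b.sum_repr m
  refine ⟨z, ?_, hzm⟩
  have h1 : ‖(fun j => (z j : ℝ))‖ ≤ K * max T 0 := by
    have h2 := hanti.le_mul_dist (fun j => (z j : ℝ)) 0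
    rw [map_zero, dist_zero_right, dist_zero_right] at h2
    refine h2.trans (mul_le_mul_of_nonneg_left ?_ K.2)
    rw [pi_norm_le_iff_of_nonneg (le_max_right _ _)]
    intro j
    rw [hΨ, Real.norm_eq_abs]
    have h3 : ∑ k, (z k : ℝ) * a (e j) k = Λ (e j) m := by
      rw [← hzm, lam_sum]
      exact sum_congr rfl fun k _ => by rw [ha]
    rw [h3]
    exact (hm' j).trans (le_max_left _ _)
  have h4 : ∀ j, |z j| ≤ N := by
    intro j
    have h5 := norm_le_pi_norm (fun j => (z j : ℝ)) j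
    simp only [Real.norm_eq_abs] at h5
    have h6 : |(z j : ℝ)| < N := by linarith
    have h7 : ((|z j| : ℤ) : ℝ) < ((N : ℤ) : ℝ) := by
      push_cast
      exact h6
    exact (Int.cast_lt.1 h7).le
  rw [Set.mem_Icc]
  exact ⟨fun j => (abs_le.1 (h4 j)).1, fun j => (abs_le.1 (h4 j)).2⟩

end Pool.Agent.H297.AKLin
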