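import Pool.Agent.H465.CG.Stm

/-! # Project CG (owner helper465), task SPair (helper297): two ideals in the same class -/

set_option autoImplicit false

open NumberField

namespace Pool.Agent.H297.CG

theorem sPair : Pool.Agent.H465.CG.SPair := by
  intro K _ _ hK m 𝔞 𝔟 _ h𝔞 h𝔟 hrel
  obtain ⟨x, y, hx, hy, hx1, hy1, hxy⟩ := hrel
  obtain ⟨B, hB⟩ : ∃ B : 𝓞 K, B = (Ideal.absNorm 𝔟 : 𝓞 K) := ⟨_, rfl⟩
  have hb0 : Ideal.absNorm 𝔟 ≠ 0 := fun h => h𝔟 (Ideal.absNorm_eq_zero_iff.mp h)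
  have hB0 : B ≠ 0 := by
    rw [hB]
    exact Nat.cast_ne_zero.mpr hb0
  have hBm : B ∈ 𝔟 := by
    rw [hB]
    exact Ideal.absNorm_mem 𝔟
  obtain ⟨𝔠, h𝔠⟩ := Ideal.dvd_span_singleton.mpr hBm
  have e1 : Ideal.span {x} * (𝔞 * 𝔠) = Ideal.span {y * B} := by
    rw [← mul_assoc, hxy, mul_assoc, ← h𝔠, Ideal.span_singleton_mul_span_singleton]
  have e2 : y * B ∈ Ideal.span {x} * (𝔞 * 𝔠) := by
    rw [e1]
    exact Ideal.mem_span_singleton_self _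
  obtain ⟨β, -, hβ⟩ := Ideal.mem_span_singleton_mul.mp e2
  have hβ0 : β ≠ 0 := by
    intro h
    rw [h, mul_zero] at hβ
    exact mul_ne_zero hy hB0 hβ.symm
  have e3 : 𝔞 * 𝔠 = Ideal.span {β} := by
    apply (Ideal.span_singleton_mul_right_inj hx).mp
    rw [e1, ← hβ, Ideal.span_singleton_mul_span_singleton]
  have hn : Ideal.absNorm 𝔠 = Ideal.absNorm 𝔟 := by
    have h1 : Ideal.absNorm (Ideal.span {(Ideal.absNorm 𝔟 : 𝓞 K)}) = Ideal.absNorm 𝔟 ^ 2 := by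
      rw [Ideal.absNorm_span_natCast, RingOfIntegers.rank, hK]
    rw [← hB, h𝔠, map_mul, sq] at h1
    exact Nat.eq_of_mul_eq_mul_left (Nat.pos_of_ne_zero hb0) h1
  have hn' : Pool.Agent.H465.CG.NN 𝔠 = Pool.Agent.H465.CG.NN 𝔟 := by
    unfold Pool.Agent.H465.CG.NN
    rw [hn]
  refine ⟨β, 𝔠, hβ0, ?_, e3, hn', ?_, ?_⟩
  · rw [← hB, h𝔠]
  · rw [← hn', ← e3]
    unfold Pool.Agent.H465.CG.NN
    rw [map_mul]
    push_cast
    rfl
  · rw [← hB]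
    have e4 : β - B = (y - 1) * B - (x - 1) * B - (x - 1) * (β - B) := by
      linear_combination hβ
    rw [e4]
    exact sub_mem (sub_mem (Ideal.mul_mem_right _ _ hy1) (Ideal.mul_mem_right _ _ hx1))
      (Ideal.mul_mem_right _ _ hx1)

end Pool.Agent.H297.CG
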