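import Pool.Agent.H812.SO.Stm2

/-!
helper297: the full symmetry group is dihedral (S_DIH).
-/

set_option autoImplicit false

namespace Pool.Agent.H297.SoDIH

open Set Pool.Agent.H812.SO Pool.Agent.H812.SF

theorem trans0 {D : Set ℂ} (hD : Bornology.IsBounded D) (hne : D.Nonempty) {c : ℂ}
    (h : ∀ z ∈ D, z + c ∈ D) : c = 0 := by
  obtain ⟨z0, hz0⟩ := hne
  obtain ⟨M, hM⟩ := hD.exists_norm_le
  have h1 : ∀ k : ℕ, z0 + (k : ℂ) * c ∈ D := by
    intro k
    induction k with
    | zero => simpa using hz0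
    | succ k ih =>
      have h2 := h _ ih
      have h3 : z0 + (k : ℂ) * c + c = z0 + ((k + 1 : ℕ) : ℂ) * c := by
        push_cast
        ring
      rw [h3] at h2
      exact h2
  by_contra hc
  have hc' : 0 < ‖c‖ := norm_pos_iff.2 hc
  obtain ⟨k, hk⟩ := exists_nat_gt ((M + ‖z0‖) / ‖c‖)
  rw [div_lt_iff₀ hc'] at hk
  have h2 := hM _ (h1 k)
  have h3 : ‖(k : ℂ) * c‖ ≤ ‖z0 + (k : ℂ) * c‖ + ‖z0‖ := by
    have h4 : (k : ℂ) * c = (z0 + (k : ℂ) * c) - z0 := by ring
    calc ‖(k : ℂ) * c‖ = ‖(z0 + (k : ℂ) * c) - z0‖ := by rw [← h4]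
      _ ≤ _ := norm_sub_le _ _
  rw [norm_mul, Complex.norm_natCast] at h3
  linarith

theorem proof_DIH : S_DIH := by
  intro n D hn hb hne hrot hconj
  have hn0 : n ≠ 0 := by omega
  have hnorm : ∀ ω : ℂ, ω ^ n = 1 → ‖ω‖ = 1 := fun ω hω =>
    Complex.norm_eq_one_of_pow_eq_one hω hn0
  have hR : ∀ ω : ℂ, ω ^ n = 1 → ∀ z ∈ D, ω * z ∈ D := by
    intro ω hω z hz
    have h1 := (hrot ω (hnorm ω hω)).2 hω
    rw [← h1]
    exact ⟨z, hz, rfl⟩
  intro σ
  constructor
  · intro hσ
    have hσ1 : ∀ z ∈ D, σ z ∈ D := by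
      intro z hz
      rw [← hσ]
      exact ⟨z, hz, rfl⟩
    have hσ2 : ∀ z ∈ D, ∃ w ∈ D, σ w = z := by
      intro z hz
      rw [← hσ] at hz
      exact hz
    set ω₀ : ℂ := Complex.exp (2 * Real.pi * Complex.I / n) with hω₀
    have hprim : IsPrimitiveRoot ω₀ n := Complex.isPrimitiveRoot_exp n hn0
    have hω1 : ω₀ ^ n = 1 := hprim.pow_eq_one
    have hωne : ω₀ ≠ 1 := hprim.ne_one (by omega)
    have hω0 : ω₀ ≠ 0 := hprim.ne_zero hn0
    have hωn := hnorm ω₀ hω1
    have hωi : (ω₀⁻¹) ^ n = 1 := by rw [inv_pow, hω1, inv_one]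
    have hωc : (starRingEnd ℂ) ω₀ * ω₀ = 1 := by
      rw [← Complex.normSq_eq_conj_mul_self, Complex.normSq_eq_norm_sq, hωn]
      norm_num
    -- Mazur-Ulam
    set b : ℂ := σ 0 with hb0
    obtain ⟨a, ha⟩ := linear_isometry_complex σ.toRealLinearIsometryEquiv
    have hσz : ∀ z, σ z = σ.toRealLinearIsometryEquiv z + b := by
      intro z
      rw [IsometryEquiv.toRealLinearIsometryEquiv_apply]
      ring
    have han : ‖(a : ℂ)‖ = 1 := Circle.norm_coe a
    rcases ha with ha | ha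
    · have h1 : ∀ z, σ z = a * z + b := by
        intro z
        rw [hσz, ha, rotation_apply]
      have h2 : (1 - ω₀) * b = 0 := by
        refine trans0 hb hne fun z hz => ?_
        obtain ⟨w, hw, hwz⟩ := hσ2 _ (hR _ hωi z hz)
        have h3 := hσ1 _ (hR _ hω1 w hw)
        rw [h1] at h3 hwz
        have h4 : (a : ℂ) * (ω₀ * w) + b = z + (1 - ω₀) * b := by
          have h5 : (a : ℂ) * w = ω₀⁻¹ * z - b := by rw [← hwz]; ring
          calc (a : ℂ) * (ω₀ * w) + b = ω₀ * ((a : ℂ) * w) + b := by ring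
            _ = ω₀ * (ω₀⁻¹ * z - b) + b := by rw [h5]
            _ = (ω₀ * ω₀⁻¹) * z + (1 - ω₀) * b := by ring
            _ = z + (1 - ω₀) * b := by rw [mul_inv_cancel₀ hω0, one_mul]
        rw [h4] at h3
        exact h3
      have hb' : b = 0 := by
        rcases mul_eq_zero.1 h2 with h | h
        · exact absurd (sub_eq_zero.1 h).symm hωne
        · exact h
      rw [hb'] at h1
      refine ⟨a, ?_, Or.inl fun z => by rw [h1, add_zero]⟩
      rw [← hrot a han]
      have h3 : (fun z : ℂ => (a : ℂ) * z) = σ := by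
        funext z
        rw [h1, add_zero]
      rw [h3]
      exact hσ
    · have h1 : ∀ z, σ z = a * (starRingEnd ℂ) z + b := by
        intro z
        rw [hσz, ha, LinearIsometryEquiv.trans_apply, rotation_apply, Complex.conjLIE_apply]
      have h2 : (1 - (starRingEnd ℂ) ω₀) * b = 0 := by
        refine trans0 hb hne fun z hz => ?_
        obtain ⟨w, hw, hwz⟩ := hσ2 _ (hR _ hω1 z hz)
        have h3 := hσ1 _ (hR _ hω1 w hw)
        rw [h1] at h3 hwz
        have h4 : (a : ℂ) * (starRingEnd ℂ) (ω₀ * w) + b = z + (1 - (starRingEnd ℂ) ω₀) * b := by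
          have h5 : (a : ℂ) * (starRingEnd ℂ) w = ω₀ * z - b := by rw [← hwz]; ring
          calc (a : ℂ) * (starRingEnd ℂ) (ω₀ * w) + b =
                (starRingEnd ℂ) ω₀ * ((a : ℂ) * (starRingEnd ℂ) w) + b := by
                rw [map_mul]; ring
            _ = (starRingEnd ℂ) ω₀ * (ω₀ * z - b) + b := by rw [h5]
            _ = ((starRingEnd ℂ) ω₀ * ω₀) * z + (1 - (starRingEnd ℂ) ω₀) * b := by ring
            _ = z + (1 - (starRingEnd ℂ) ω₀) * b := by rw [hωc, one_mul]
        rw [h4] at h3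
        exact h3
      have hb' : b = 0 := by
        rcases mul_eq_zero.1 h2 with h | h
        · exfalso
          apply hωne
          have h5 := (sub_eq_zero.1 h).symm
          have h6 := congrArg (starRingEnd ℂ) h5
          rw [Complex.conj_conj, map_one] at h6
          exact h6
        · exact h
      rw [hb'] at h1
      refine ⟨a, ?_, Or.inr fun z => by rw [h1, add_zero]⟩
      rw [← hrot a han]
      apply Set.Subset.antisymm
      · rintro _ ⟨z, hz, rfl⟩
        have h3 := hσ1 _ (hconj z hz)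
        rw [h1, add_zero, Complex.conj_conj] at h3
        exact h3
      · intro z hz
        obtain ⟨w, hw, hwz⟩ := hσ2 z hz
        rw [h1, add_zero] at hwz
        exact ⟨(starRingEnd ℂ) w, hconj w hw, hwz⟩
  · rintro ⟨ω, hω, h | h⟩
    · have h1 := (hrot ω (hnorm ω hω)).2 hω
      have h2 : (σ : ℂ → ℂ) = fun z : ℂ => ω * z := funext h
      rw [h2]
      exact h1
    · have h1 := (hrot ω (hnorm ω hω)).2 hω
      apply Set.Subset.antisymm
      · rintro _ ⟨z, hz, rfl⟩
        rw [h]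
        exact hR ω hω _ (hconj z hz)
      · intro z hz
        rw [← h1] at hz
        obtain ⟨w, hw, hwz⟩ := hz
        refine ⟨(starRingEnd ℂ) w, hconj w hw, ?_⟩
        rw [h, Complex.conj_conj]
        exact hwz

end Pool.Agent.H297.SoDIH

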