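import Mathlib

/-! # Rescaling a finite family of sparse vectors (owner helper426, task T1; helper297) -/

set_option autoImplicit false

namespace Pool.Agent.H297.Two

/-- T1. Rescaling a finite family of sparse vectors. -/
theorem balance {W : Type} [Fintype W] {q N : ℕ} (J : Finset (Fin q)) (a : W → Fin q → ℝ)
    (ha : ∀ w j, 0 ≤ a w j) (hN : ∀ w, (Finset.univ.filter fun j => a w j ≠ 0).card ≤ N)
    (c : W → ℝ) (hc : ∀ w, 0 ≤ c w) (hca : ∀ w, c w = 0 → ∀ j ∈ J, a w j = 0) (B X : ℝ)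
    (hX : 0 ≤ X) (hB : ∑ w, c w ≤ B) (hu : ∀ j ∈ J, ∑ w, a w j ≤ X) :
    ∑ j ∈ J, ∑ w, a w j ≤ N * X ∨
      ∃ μ : W → ℝ, (∀ w, 0 ≤ μ w) ∧ ∑ w, μ w * c w ≤ B ∧ (∀ j ∈ J, ∑ w, μ w * a w j ≤ X) ∧
        (∃ i ∈ J, ∑ w, μ w * a w i = X) ∧
        ∑ j ∈ J, ∑ w, a w j ≤ ∑ j ∈ J, ∑ w, μ w * a w j := by
  classical
  obtain ⟨u, hudef⟩ : ∃ u : Fin q → ℝ, ∀ j, u j = ∑ w, a w j := ⟨_, fun _ => rfl⟩
  obtain ⟨A, hA⟩ : ∃ A : W → ℝ, ∀ w, A w = ∑ j ∈ J, a w j := ⟨_, fun _ => rfl⟩
  have hNX : 0 ≤ (N : ℝ) * X := by positivity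
  by_cases hne : (Finset.univ.filter fun w => 0 < c w).Nonempty
  swap
  · left
    have h0 : ∀ w, c w = 0 := by
      intro w
      by_contra h
      exact hne ⟨w, Finset.mem_filter.mpr ⟨Finset.mem_univ _, lt_of_le_of_ne (hc w) (Ne.symm h)⟩⟩
    have h1 : ∑ j ∈ J, ∑ w, a w j = 0 :=
      Finset.sum_eq_zero fun j hj => Finset.sum_eq_zero fun w _ => hca w (h0 w) j hj
    rw [h1]
    exact hNX
  obtain ⟨s, hs, hmax⟩ := Finset.exists_max_image _ (fun w => A w / c w) hne
  rw [Finset.mem_filter] at hs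
  have hcs : 0 < c s := hs.2
  obtain ⟨κ, hκ⟩ : ∃ κ : ℝ, κ = (∑ w, c w) / c s := ⟨_, rfl⟩
  have hκc : κ * c s = ∑ w, c w := by
    rw [hκ]
    field_simp
  have hκ0 : 0 ≤ κ := by
    rw [hκ]
    exact div_nonneg (Finset.sum_nonneg fun w _ => hc w) (hc s)
  have hAw : ∀ w, A w ≤ c w * (A s / c s) := by
    intro w
    rcases (hc w).eq_or_lt with h | h
    · rw [hA, Finset.sum_eq_zero fun j hj => hca w h.symm j hj, ← h, zero_mul]
    · have h1 := hmax w (Finset.mem_filter.mpr ⟨Finset.mem_univ _, h⟩)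
      have h2 : A w = c w * (A w / c w) := by field_simp
      rw [h2]
      exact mul_le_mul_of_nonneg_left h1 h.le
  have hsumA : ∑ w, A w ≤ κ * A s := by
    calc ∑ w, A w ≤ ∑ w, c w * (A s / c s) := Finset.sum_le_sum fun w _ => hAw w
      _ = κ * A s := by
          rw [← Finset.sum_mul, ← hκc]
          field_simp
  have hsumu : ∑ j ∈ J, u j = ∑ w, A w := by
    simp only [hudef, hA]
    exact Finset.sum_comm
  obtain ⟨v, hv⟩ : ∃ v : Fin q → ℝ, ∀ j, v j = κ * a s j := ⟨_, fun _ => rfl⟩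
  have hsumv : ∑ j ∈ J, v j = κ * A s := by
    simp only [hv, hA, Finset.mul_sum]
  have huv : ∑ j ∈ J, u j ≤ ∑ j ∈ J, v j := by
    rw [hsumu, hsumv]
    exact hsumA
  simp only [← hudef]
  have hu' : ∀ j ∈ J, u j ≤ X := by
    intro j hj
    rw [hudef]
    exact hu j hj
  by_cases hvX : ∀ j ∈ J, v j ≤ X
  · left
    refine huv.trans ?_
    have h1 : ∑ j ∈ J, v j ≤ ∑ j ∈ Finset.univ.filter (fun j => a s j ≠ 0), X := by
      calc ∑ j ∈ J, v j = ∑ j ∈ J.filter (fun j => a s j ≠ 0), v j := by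
            rw [Finset.sum_filter]
            refine Finset.sum_congr rfl fun j _ => ?_
            split_ifs with h
            · rfl
            · rw [hv]
              have : a s j = 0 := by
                by_contra h'
                exact h h'
              rw [this, mul_zero]
        _ ≤ ∑ j ∈ J.filter (fun j => a s j ≠ 0), X :=
            Finset.sum_le_sum fun j hj => hvX j (Finset.mem_filter.mp hj).1
        _ ≤ _ := Finset.sum_le_sum_of_subset_of_nonneg
            (Finset.filter_subset_filter _ (Finset.subset_univ J)) fun _ _ _ => hX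
    refine h1.trans ?_
    rw [Finset.sum_const, nsmul_eq_mul]
    exact mul_le_mul_of_nonneg_right (by exact_mod_cast hN s) hX
  · right
    push Not at hvX
    obtain ⟨j₀, hj₀, hj₀'⟩ := hvX
    have hne' : (J.filter fun j => X < v j).Nonempty := ⟨j₀, Finset.mem_filter.mpr ⟨hj₀, hj₀'⟩⟩
    obtain ⟨i, hi, hmin⟩ := Finset.exists_min_image _ (fun j => (X - u j) / (v j - u j)) hne'
    rw [Finset.mem_filter] at hi
    obtain ⟨t, ht⟩ : ∃ t : ℝ, t = (X - u i) / (v i - u i) := ⟨_, rfl⟩
    have hiu := hu' i hi.1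
    have hd : 0 < v i - u i := by linarith [hi.2]
    have hti : t * (v i - u i) = X - u i := by
      rw [ht]
      field_simp
    have ht0 : 0 ≤ t := by
      rw [ht]
      exact div_nonneg (by linarith) hd.le
    have ht1 : t ≤ 1 := by
      rw [ht, div_le_one hd]
      linarith [hi.2]
    have hμ : ∀ f : W → ℝ, ∑ w, ((1 - t) + (if w = s then t * κ else 0)) * f w =
        (1 - t) * ∑ w, f w + t * (κ * f s) := by
      intro f
      simp only [add_mul, Finset.sum_add_distrib, ite_mul, zero_mul, Finset.sum_ite_eq',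
        Finset.mem_univ, if_true, ← Finset.mul_sum]
      ring
    have hμj : ∀ j, ∑ w, ((1 - t) + (if w = s then t * κ else 0)) * a w j =
        (1 - t) * u j + t * v j := by
      intro j
      rw [hμ (fun w => a w j), ← hudef, ← hv]
    refine ⟨fun w => (1 - t) + (if w = s then t * κ else 0), ?_, ?_, ?_, ⟨i, hi.1, ?_⟩, ?_⟩
    · intro w
      have : 0 ≤ t * κ := mul_nonneg ht0 hκ0
      beta_reduce
      split_ifs
      · linarith
      · linarith
    · rw [hμ c, hκc]
      linarith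
    · intro j hj
      rw [hμj]
      by_cases hj' : X < v j
      · have h1 := hmin j (Finset.mem_filter.mpr ⟨hj, hj'⟩)
        beta_reduce at h1
        rw [← ht] at h1
        have h2 := hu' j hj
        have h3 : 0 < v j - u j := by linarith
        rw [le_div_iff₀ h3] at h1
        linarith
      · push Not at hj'
        have h2 := hu' j hj
        nlinarith
    · rw [hμj]
      linarith
    · simp only [hμj]
      rw [Finset.sum_add_distrib, ← Finset.mul_sum, ← Finset.mul_sum]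
      nlinarith

end Pool.Agent.H297.Two
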